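import Mathlib

/-!
MODULE Berge (Mathlib only).  The Tutte-Berge formula, from Tutte's theorem of Mathlib.

PROOF.  Let `k` be the maximal number of disjoint edges of `S` (`p`, `q` list them), `D = m - 2 k`.
* If `D ≤ 1`: `A = ∅`, `comp` constant, `R` = any set with `D` elements.
* If `D ≥ 2`: let `G'` be the graph on `Fin m ⊕ Fin (D - 2)` in which the new vertices are adjacent to
  everything and `S` on the old ones.  It has no perfect matching: at most `D - 2` old vertices are matched to new
  ones, so at least `m - (D-2) = 2k + 2` old vertices are matched among themselves: `k + 1` disjoint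
  edges of `S`, contradicting the maximality of `k`.  By `SimpleGraph.tutte` there is `u` with
  `u.ncard < number of odd components of G' - u`.  The number `c` of odd components is congruent to
  `m + D - 2 - u.ncard`, hence to `u.ncard`, modulo 2, so `c ≥ u.ncard + 2`.  All new vertices are in `u`:
  otherwise `G' - u` is connected, contradicting `c ≥ 2`.  So `u` = new vertices and `A ⊆ Fin m`, and
  `c ≥ A.card + D`.
  Choose `R` = one vertex from each of `A.card + D` odd components (drop the surplus), `comp x` = a chosen
  vertex of the component of `x` in `G' - u` (anything for `x ∈ A`).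
The bound `A.card ≤ k` follows from `R.card + A.card ≤ m`.
-/

set_option autoImplicit false

namespace Pool.Agent.Work.MP_5f857a_co

namespace BergeAux

/-- `S` with `n` universal vertices added. -/
def aug {m : ℕ} (S : SimpleGraph (Fin m)) (n : ℕ) : SimpleGraph (Fin m ⊕ Fin n) where
  Adj a b := a ≠ b ∧ ∀ x y, a = Sum.inl x → b = Sum.inl y → S.Adj x y
  symm := ⟨fun _ _ h => ⟨h.1.symm, fun x y hx hy => (h.2 y x hy hx).symm⟩⟩
  loopless := ⟨fun _ h => h.1 rfl⟩

/-- The disjoint edges property. -/
def HasMatching {m : ℕ} (S : SimpleGraph (Fin m)) (k : ℕ) : Prop :=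
  ∃ p q : Fin k → Fin m, Function.Injective (Sum.elim p q) ∧ ∀ t, S.Adj (p t) (q t)

theorem hasMatching_zero {m : ℕ} (S : SimpleGraph (Fin m)) : HasMatching S 0 :=
  ⟨Fin.elim0, Fin.elim0, by rintro (x | x); exacts [x.elim0, x.elim0], fun t => t.elim0⟩

theorem hasMatching_le {m : ℕ} (S : SimpleGraph (Fin m)) {k : ℕ} (h : HasMatching S k) :
    2 * k ≤ m := by
  obtain ⟨p, q, hi, -⟩ := h
  have := Fintype.card_le_of_injective _ hi
  simp at this
  omega

/-- From a fixed point free partial involution to disjoint edges. -/
theorem matching_of_involution {m : ℕ} (S : SimpleGraph (Fin m)) (B : Finset (Fin m))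
    (f : Fin m → Fin m) (hf : ∀ x ∈ B, f x ∈ B) (hff : ∀ x ∈ B, f (f x) = x)
    (hadj : ∀ x ∈ B, S.Adj x (f x)) (k : ℕ) (hk : 2 * k ≤ B.card + 1) : HasMatching S k := by
  classical
  set P := B.filter (fun x => x < f x) with hP
  set Q := B.filter (fun x => f x < x) with hQ
  have hcard : P.card = Q.card := by
    refine Finset.card_bij (fun x _ => f x) ?_ ?_ ?_
    · intro x hx
      rw [hP, Finset.mem_filter] at hx
      rw [hQ, Finset.mem_filter, hff x hx.1]
      exact ⟨hf x hx.1, hx.2⟩
    · intro x hx y hy hxy
      rw [hP, Finset.mem_filter] at hx hy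
      rw [← hff x hx.1, ← hff y hy.1, hxy]
    · intro y hy
      rw [hQ, Finset.mem_filter] at hy
      refine ⟨f y, ?_, hff y hy.1⟩
      rw [hP, Finset.mem_filter, hff y hy.1]
      exact ⟨hf y hy.1, hy.2⟩
  have hunion : P ∪ Q = B := by
    ext x
    simp only [hP, hQ, Finset.mem_union, Finset.mem_filter]
    constructor
    · rintro (h | h) <;> exact h.1
    · intro h
      rcases lt_trichotomy x (f x) with h1 | h1 | h1
      · exact Or.inl ⟨h, h1⟩
      · exact absurd h1 (hadj x h).ne
      · exact Or.inr ⟨h, h1⟩
  have hsum : B.card ≤ P.card + Q.card := by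
    rw [← hunion]; exact Finset.card_union_le P Q
  have hkP : k ≤ P.card := by omega
  obtain ⟨e⟩ : Nonempty (Fin k ↪ P) := by
    rw [Function.Embedding.nonempty_iff_card_le]
    simpa using hkP
  have hmem' : ∀ x ∈ P, x ∈ B ∧ x < f x := fun x hx => by
    rw [hP, Finset.mem_filter] at hx
    exact hx
  have hmem : ∀ t, (e t : Fin m) ∈ B ∧ (e t : Fin m) < f (e t) := fun t => hmem' _ (e t).2
  refine ⟨fun t => e t, fun t => f (e t), ?_, fun t => hadj _ (hmem t).1⟩
  rintro (s | s) (t | t) h
  · simp only [Sum.elim_inl] at h
    exact congrArg _ (e.injective (Subtype.ext h))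
  · simp only [Sum.elim_inl, Sum.elim_inr] at h
    exfalso
    have h1 := (hmem s).2
    have h2 := (hmem t).2
    rw [h, hff _ (hmem t).1] at h1
    exact absurd h1 (not_lt.mpr h2.le)
  · simp only [Sum.elim_inl, Sum.elim_inr] at h
    exfalso
    have h1 := (hmem s).2
    have h2 := (hmem t).2
    rw [← h, hff _ (hmem s).1] at h2
    exact absurd h2 (not_lt.mpr h1.le)
  · simp only [Sum.elim_inr] at h
    have h3 : (e s : Fin m) = e t := by
      rw [← hff _ (hmem s).1, ← hff _ (hmem t).1, h]
    exact congrArg _ (e.injective (Subtype.ext h3))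

/-- If the augmented graph has a perfect matching, `S` has many disjoint edges. -/
theorem matching_of_aug {m : ℕ} (S : SimpleGraph (Fin m)) (n : ℕ)
    (M : (aug S n).Subgraph) (hM : M.IsPerfectMatching) (k : ℕ) (hk : 2 * k + n ≤ m) :
    HasMatching S k := by
  classical
  have hex : ∀ v, ∃ w, M.Adj v w ∧ ∀ w', M.Adj v w' → w' = w := by
    intro v
    obtain ⟨w, hw, hu⟩ := hM.1 (hM.2 v)
    exact ⟨w, hw, hu⟩
  choose g hg hgu using hex
  have hgg : ∀ v, g (g v) = v := fun v => (hgu (g v) v (hg v).symm).symm
  have hinj : Function.Injective g := fun a b h => by rw [← hgg a, ← hgg b, h]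
  set B : Finset (Fin m) := Finset.univ.filter (fun x => ∃ y, g (Sum.inl x) = Sum.inl y) with hB
  have hcompl : Bᶜ.card ≤ n := by
    have this' : ∀ x ∈ Bᶜ, ∃ z : Fin n, g (Sum.inl x) = Sum.inr z := by
      intro x hx
      rw [Finset.mem_compl, hB, Finset.mem_filter] at hx
      push Not at hx
      rcases h : g (Sum.inl x) with y | z
      · exact absurd h (hx (Finset.mem_univ _) y)
      · exact ⟨z, rfl⟩
    have : ∀ x : (Bᶜ : Finset (Fin m)), ∃ z : Fin n, g (Sum.inl x) = Sum.inr z :=
      fun x => this' x x.2
    choose z hz using this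
    have h1 : Function.Injective z := by
      intro x y hxy
      have h2 : g (Sum.inl (x : Fin m)) = g (Sum.inl (y : Fin m)) := by
        rw [hz x, hz y, hxy]
      exact Subtype.ext (Sum.inl_injective (hinj h2))
    have h3 := Fintype.card_le_of_injective _ h1
    rwa [Fintype.card_coe, Fintype.card_fin] at h3
  have hBc : B.card + Bᶜ.card = m := by
    have := Finset.card_add_card_compl B
    rwa [Fintype.card_fin] at this
  have hf : ∀ x ∈ B, ∃ y, g (Sum.inl x) = Sum.inl y := by
    intro x hx
    rw [hB, Finset.mem_filter] at hx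
    exact hx.2
  choose! f hf using hf
  have hfB : ∀ x ∈ B, f x ∈ B := by
    intro x hx
    rw [hB, Finset.mem_filter]
    refine ⟨Finset.mem_univ _, x, ?_⟩
    rw [← hf x hx, hgg]
  refine matching_of_involution S B f hfB ?_ ?_ k (by omega)
  · intro x hx
    have h1 : g (Sum.inl (f x)) = (Sum.inl x : Fin m ⊕ Fin n) := by
      rw [← hf x hx, hgg]
    have h2 := hf (f x) (hfB x hx)
    rw [h1] at h2
    exact (Sum.inl_injective h2).symm
  · intro x hx
    have h1 := M.adj_sub (hg (Sum.inl x))
    exact h1.2 x (f x) rfl (hf x hx)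

end BergeAux

open BergeAux in
theorem berge {m : ℕ} (S : SimpleGraph (Fin m)) :
    ∃ (k : ℕ) (p q : Fin k → Fin m) (A R : Finset (Fin m)) (comp : Fin m → Fin m),
      Function.Injective (Sum.elim p q) ∧ (∀ t, S.Adj (p t) (q t)) ∧
      R.card + 2 * k = m + A.card ∧ Disjoint R A ∧
      (∀ x ∈ R, ∀ y ∈ R, comp x = comp y → x = y) ∧
      (∀ x y, x ∉ A → y ∉ A → comp x ≠ comp y → ¬ S.Adj x y) := by
  classical
  -- the maximal k
  obtain ⟨k, hk, hmax⟩ : ∃ k, HasMatching S k ∧ ¬ HasMatching S (k + 1) := by
    by_contra hcon
    push Not at hcon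
    have : ∀ k, HasMatching S k := by
      intro k
      induction k with
      | zero => exact hasMatching_zero S
      | succ k ih => exact hcon k ih
    have := hasMatching_le S (this (m + 1))
    omega
  have h2k := hasMatching_le S hk
  obtain ⟨p, q, hinj, hadj⟩ := hk
  by_cases hD : m - 2 * k ≤ 1
  · -- easy case
    obtain ⟨R, hR⟩ : ∃ R : Finset (Fin m), R.card = m - 2 * k := by
      obtain ⟨R, -, hR⟩ := Finset.exists_subset_card_eq
        (s := (Finset.univ : Finset (Fin m))) (n := m - 2 * k) (by simp)
      exact ⟨R, hR⟩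
    refine ⟨k, p, q, ∅, R, fun x => ⟨0, by have := x.2; omega⟩, hinj, hadj, ?_, ?_, ?_, ?_⟩
    · simp only [Finset.card_empty]; omega
    · exact Finset.disjoint_empty_right _
    · intro x hx y hy _
      exact Finset.card_le_one.mp (by omega) x hx y hy
    · intro x y _ _ h
      exact absurd rfl h
  · set n := m - 2 * k - 2 with hn
    set G := aug S n with hG
    have hno : ¬ ∃ M : G.Subgraph, M.IsPerfectMatching := by
      rintro ⟨M, hM⟩
      exact hmax (matching_of_aug S n M hM (k + 1) (by omega))
    rw [SimpleGraph.tutte] at hno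
    push Not at hno
    obtain ⟨u, hu⟩ := hno
    unfold SimpleGraph.IsTutteViolator at hu
    set W := (⊤ : G.Subgraph).deleteVerts u with hW
    set H := W.coe with hH
    have hverts : ∀ v, v ∈ W.verts ↔ v ∉ u := by
      intro v; simp [hW]
    have hHadj : ∀ a b : W.verts, H.Adj a b ↔ G.Adj a b := by
      intro a b
      have ha := (hverts a).mp a.2
      have hb := (hverts b).mp b.2
      simp [hH, hW, ha, hb]
    -- parity
    have hpar := H.odd_ncard_oddComponents
    have hcardW : Nat.card W.verts + u.ncard = m + n := by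
      have h1 : W.verts = uᶜ := by
        ext v; rw [hverts]; rfl
      have h2 := Set.ncard_add_ncard_compl u
      rw [h1]
      change uᶜ.ncard + u.ncard = m + n
      rw [add_comm, h2]
      simp [Nat.card_eq_fintype_card]
    have hge : u.ncard + 2 ≤ H.oddComponents.ncard := by
      rcases Nat.even_or_odd H.oddComponents.ncard with he | ho
      · have hne : ¬ Odd (Nat.card W.verts) := by
          rw [← hpar]; exact Nat.not_odd_iff_even.mpr he
        rw [Nat.not_odd_iff_even] at hne
        obtain ⟨a, ha⟩ := he
        obtain ⟨b, hb⟩ := hne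
        omega
      · have hne := hpar.mp ho
        obtain ⟨a, ha⟩ := ho
        obtain ⟨b, hb⟩ := hne
        omega
    -- new vertices are in u
    have hnew : ∀ z : Fin n, (Sum.inr z : Fin m ⊕ Fin n) ∈ u := by
      intro z
      by_contra hz
      have h1 : 1 < H.oddComponents.ncard := by omega
      obtain ⟨c, d, hc, hd, hcd⟩ := (Set.one_lt_ncard_iff (Set.toFinite _)).mp h1
      apply hcd
      induction c using SimpleGraph.ConnectedComponent.ind with
      | h a =>
        induction d using SimpleGraph.ConnectedComponent.ind with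
        | h b =>
          have key : ∀ v : W.verts, H.connectedComponentMk v
              = H.connectedComponentMk ⟨Sum.inr z, (hverts _).mpr hz⟩ := by
            intro v
            by_cases hv : (v : Fin m ⊕ Fin n) = Sum.inr z
            · congr 1; exact Subtype.ext hv
            · apply SimpleGraph.ConnectedComponent.connectedComponentMk_eq_of_adj
              rw [hHadj]
              refine ⟨hv, ?_⟩
              intro x y _ hy
              cases hy
          rw [key a, key b]
    -- A
    set A : Finset (Fin m) := Finset.univ.filter (fun x => Sum.inl x ∈ u) with hA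
    have hmemA : ∀ x, x ∈ A ↔ Sum.inl x ∈ u := by
      intro x; simp [hA]
    have hucard : u.ncard = A.card + n := by
      have h1 : u = ((A.image Sum.inl ∪ (Finset.univ : Finset (Fin n)).image Sum.inr :
          Finset (Fin m ⊕ Fin n)) : Set (Fin m ⊕ Fin n)) := by
        ext v
        rcases v with x | z
        · simp [hmemA]
        · simp [hnew z]
      rw [h1, Set.ncard_coe_finset, Finset.card_union_of_disjoint]
      · rw [Finset.card_image_of_injective _ Sum.inl_injective,
          Finset.card_image_of_injective _ Sum.inr_injective]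
        simp
      · rw [Finset.disjoint_left]
        intro v hv hv'
        rw [Finset.mem_image] at hv hv'
        obtain ⟨a, -, ha⟩ := hv
        obtain ⟨b, -, hb⟩ := hv'
        rw [← ha] at hb
        cases hb
    -- representatives
    have hrep : ∀ c : H.ConnectedComponent, ∃ x : Fin m, ∃ h : (Sum.inl x : Fin m ⊕ Fin n) ∈ W.verts,
        H.connectedComponentMk ⟨Sum.inl x, h⟩ = c := by
      intro c
      induction c using SimpleGraph.ConnectedComponent.ind with
      | h a =>
        obtain ⟨v, hv⟩ := a
        rcases v with x | z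
        · exact ⟨x, hv, rfl⟩
        · exact absurd (hnew z) ((hverts _).mp hv)
    choose r hr hrc using hrep
    have hrinj : Function.Injective r := by
      intro c d h
      rw [← hrc c, ← hrc d]
      congr 1
      exact Subtype.ext (congrArg Sum.inl h)
    obtain ⟨T, hTsub, hTcard⟩ := Set.exists_subset_card_eq (s := H.oddComponents)
      (n := A.card + (m - 2 * k)) (by omega)
    set R : Finset (Fin m) := (Set.toFinite (r '' T)).toFinset with hR
    have hRcard : R.card = A.card + (m - 2 * k) := by
      rw [hR, ← Set.ncard_eq_toFinset_card, Set.ncard_image_of_injective _ hrinj, hTcard]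
    have hmemR : ∀ x, x ∈ R → ∃ c, r c = x := by
      intro x hx
      rw [hR, Set.Finite.mem_toFinset] at hx
      obtain ⟨c, -, hc⟩ := hx
      exact ⟨c, hc⟩
    have hRA : ∀ x ∈ R, x ∉ A := by
      intro x hx hxA
      obtain ⟨c, rfl⟩ := hmemR x hx
      exact (hverts _).mp (hr c) ((hmemA _).mp hxA)
    set comp : Fin m → Fin m := fun x =>
      if h : Sum.inl x ∈ W.verts then r (H.connectedComponentMk ⟨Sum.inl x, h⟩) else x with hcomp
    have hcompr : ∀ c, comp (r c) = r c := by
      intro c
      simp only [hcomp]
      rw [dif_pos (hr c), hrc]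
    refine ⟨k, p, q, A, R, comp, hinj, hadj, ?_, ?_, ?_, ?_⟩
    · rw [hRcard]; omega
    · rw [Finset.disjoint_left]; exact hRA
    · intro x hx y hy h
      obtain ⟨c, rfl⟩ := hmemR x hx
      obtain ⟨d, rfl⟩ := hmemR y hy
      rwa [hcompr, hcompr] at h
    · intro x y hx hy hxy hS
      apply hxy
      have hx' : (Sum.inl x : Fin m ⊕ Fin n) ∈ W.verts := (hverts _).mpr (fun h => hx ((hmemA _).mpr h))
      have hy' : (Sum.inl y : Fin m ⊕ Fin n) ∈ W.verts := (hverts _).mpr (fun h => hy ((hmemA _).mpr h))
      simp only [hcomp]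
      rw [dif_pos hx', dif_pos hy']
      congr 1
      apply SimpleGraph.ConnectedComponent.connectedComponentMk_eq_of_adj
      rw [hHadj]
      refine ⟨?_, ?_⟩
      · intro h
        exact hS.ne (Sum.inl_injective h)
      · intro x' y' hx'' hy''
        rw [← Sum.inl_injective hx'', ← Sum.inl_injective hy'']
        exact hS

end Pool.Agent.Work.MP_5f857a_co
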