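import Pool.Agent.Work.MP_5f857a_co.Defs

/-!
MODULE Comb (combinatorics, Hall's theorem).  Branch vertices and connectors.

PROOF.  Let `B = 3 d / 2` (floor), `f = R.card = m + A.card - 2 k`.  `R.card + A.card ≤ m` gives
`A.card ≤ k`.  `m < 5 d / 4`, `k ≤ m - d < d / 4`, so `f ≥ m - 2k ≥ 2 d - m > 3 d / 4` and
`2 f > 3 d / 2 ≥ B`.
If `f ≥ B`: `b` = `(r, true)` for `B` elements `r ∈ R`: all pairs are `good`
(different elements of `R` have different `comp`, and are not in `A`).
Otherwise let `x = B - f ≤ f`, `X ⊆ R` with `x` elements.  The branch vertices are `(r, true)`, `r ∈ R`, and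
`(r, false)`, `r ∈ X`; number `f + x = B`.  The only pairs which are not good are
`(r, true), (r, false)`, `r ∈ X`.  Connectors: `C = {(r, false) | r ∈ R \ X} ∪ {(y, s) | y ∉ A ∪ R}`, of
number `(f - x) + 2 (m - A.card - f) = (2 f - B) + 4 (k - A.card)`, which is `≥ x` because
`3 f + 4 (k - A.card) = 3 (m + A.card - 2k) + 4 k - 4 A.card = 3 m - 2 k - A.card ≥ 3 m - 3 k ≥ 3 d`.
For `r ∈ X` let `t r = {c ∈ C | comp c.1 ≠ comp r}`; every `c ∈ t r` is good for both `(r, true)` and
`(r, false)`.  Hall's condition (`Finset.all_card_le_biUnion_card_iff_exists_injective`): for a set with one element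
`r`: `t r` contains the `f - x = 2 f - B ≥ 1` elements `(r', false)`, `r' ∈ R \ X`; for a set with two
different elements the union is all of `C` (`comp` is injective on `R`), of size `≥ x`.  So there is an injective
choice of connectors, none of which is a branch vertex.
-/

set_option autoImplicit false

namespace Pool.Agent.Work.MP_5f857a_co

theorem comb {m d k : ℕ} (h1 : 4 * m < 5 * d) (hk : k + d ≤ m) (S : SimpleGraph (Fin m))
    (A R : Finset (Fin m)) (comp : Fin m → Fin m) (hcard : R.card + 2 * k = m + A.card)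
    (hdis : Disjoint R A) (hinj : ∀ x ∈ R, ∀ y ∈ R, comp x = comp y → x = y)
    (hS : ∀ x y, x ∉ A → y ∉ A → comp x ≠ comp y → ¬ S.Adj x y) :
    ∃ (b : Fin (3 * d / 2) → Fin m × Bool)
      (w : Fin (3 * d / 2) → Fin (3 * d / 2) → Fin m × Bool), Function.Injective b ∧
      ∀ i j, i < j → good S (b i) (b j) ∨
        (good S (b i) (w i j) ∧ good S (w i j) (b j) ∧ (∀ l, w i j ≠ b l) ∧
          ∀ i' j', i' < j' → ¬ good S (b i') (b j') → w i j = w i' j' → (i, j) = (i', j')) := by
  classical
  have hRA : ∀ r ∈ R, r ∉ A := fun r hr => Finset.disjoint_left.1 hdis hr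
  have hfA : R.card + A.card ≤ m := by
    rw [← Finset.card_union_of_disjoint hdis]
    exact le_trans (Finset.card_le_univ _) (by simp)
  have hgoodR : ∀ x y : Fin m × Bool, x.1 ∈ R → y.1 ∈ R → x.1 ≠ y.1 → good S x y := by
    intro x y hx hy hxy
    exact ⟨hxy, hS _ _ (hRA _ hx) (hRA _ hy) (fun h => hxy (hinj _ hx _ hy h))⟩
  by_cases hB : 3 * d / 2 ≤ R.card
  · -- enough representatives
    obtain ⟨T, hT, hTc⟩ := Finset.exists_subset_card_eq hB
    let e := T.equivFinOfCardEq hTc
    refine ⟨fun i => ((e.symm i : Fin m), true), fun i _ => ((e.symm i : Fin m), true), ?_, ?_⟩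
    · intro i j hij
      have : (e.symm i : Fin m) = (e.symm j : Fin m) := congrArg Prod.fst hij
      exact e.symm.injective (Subtype.ext this)
    · intro i j hij
      refine Or.inl (hgoodR _ _ (hT (e.symm i).2) (hT (e.symm j).2) ?_)
      intro h
      exact hij.ne (e.symm.injective (Subtype.ext h))
  · push Not at hB
    obtain ⟨X, hX, hXc⟩ := Finset.exists_subset_card_eq
      (show 3 * d / 2 - R.card ≤ R.card by omega)
    have hXR : ∀ r ∈ X, r ∈ R := fun r hr => hX hr
    -- branch vertices
    set Bs : Finset (Fin m × Bool) := R.image (fun r => (r, true)) ∪ X.image (fun r => (r, false))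
      with hBs
    have hBmem : ∀ x : Fin m × Bool, x ∈ Bs ↔ (x.2 = true ∧ x.1 ∈ R) ∨ (x.2 = false ∧ x.1 ∈ X) := by
      rintro ⟨r, s⟩
      simp only [hBs, Finset.mem_union, Finset.mem_image, Prod.mk.injEq]
      constructor
      · rintro (⟨r', hr', rfl, rfl⟩ | ⟨r', hr', rfl, rfl⟩)
        · exact Or.inl ⟨rfl, hr'⟩
        · exact Or.inr ⟨rfl, hr'⟩
      · rintro (⟨hs, hr⟩ | ⟨hs, hr⟩)
        · exact Or.inl ⟨r, hr, rfl, hs.symm⟩
        · exact Or.inr ⟨r, hr, rfl, hs.symm⟩
    have hBcard : Bs.card = 3 * d / 2 := by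
      rw [hBs, Finset.card_union_of_disjoint, Finset.card_image_of_injective,
        Finset.card_image_of_injective, hXc]
      · omega
      · intro a b hab
        exact congrArg Prod.fst hab
      · intro a b hab
        exact congrArg Prod.fst hab
      · rw [Finset.disjoint_left]
        rintro x hx hx'
        simp only [Finset.mem_image] at hx hx'
        obtain ⟨r, -, rfl⟩ := hx
        obtain ⟨r', -, h⟩ := hx'
        simp at h
    let e := Bs.equivFinOfCardEq hBcard
    -- connectors
    set C : Finset (Fin m × Bool) := (R \ X).image (fun r => (r, false)) ∪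
      (Finset.univ \ (A ∪ R)) ×ˢ (Finset.univ : Finset Bool) with hC
    have hCmem : ∀ x : Fin m × Bool, x ∈ C ↔
        (x.2 = false ∧ x.1 ∈ R ∧ x.1 ∉ X) ∨ (x.1 ∉ A ∧ x.1 ∉ R) := by
      rintro ⟨r, s⟩
      simp only [hC, Finset.mem_union, Finset.mem_image, Prod.mk.injEq, Finset.mem_sdiff,
        Finset.mem_product, Finset.mem_univ, true_and, and_true, not_or]
      constructor
      · rintro (⟨r', ⟨h1, h2⟩, rfl, rfl⟩ | h)
        · exact Or.inl ⟨rfl, h1, h2⟩
        · exact Or.inr h
      · rintro (⟨hs, h1, h2⟩ | h)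
        · exact Or.inl ⟨r, ⟨h1, h2⟩, rfl, hs.symm⟩
        · exact Or.inr h
    have hCcard : C.card = (R.card - X.card) + 2 * (m - (A.card + R.card)) := by
      rw [hC, Finset.card_union_of_disjoint, Finset.card_image_of_injective,
        Finset.card_sdiff_of_subset hX, Finset.card_product, Finset.card_sdiff_of_subset
          (Finset.subset_univ _), Finset.card_union_of_disjoint hdis.symm]
      · simp
        ring
      · intro a b hab
        exact congrArg Prod.fst hab
      · rw [Finset.disjoint_left]
        rintro x hx hx'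
        simp only [Finset.mem_image, Finset.mem_sdiff, Finset.mem_product, Finset.mem_union,
          not_or] at hx hx'
        obtain ⟨r, ⟨hr, -⟩, rfl⟩ := hx
        exact hx'.1.2.2 hr
    have hCA : ∀ x ∈ C, x.1 ∉ A := by
      intro x hx
      rcases (hCmem x).1 hx with ⟨-, h, -⟩ | ⟨h, -⟩
      · exact hRA _ h
      · exact h
    have hCB : ∀ x ∈ C, x ∉ Bs := by
      intro x hx hxB
      rcases (hCmem x).1 hx with ⟨h1, h2, h3⟩ | ⟨h1, h2⟩
      · rcases (hBmem x).1 hxB with ⟨h4, -⟩ | ⟨-, h5⟩
        · rw [h1] at h4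
          simp at h4
        · exact h3 h5
      · rcases (hBmem x).1 hxB with ⟨-, h5⟩ | ⟨-, h5⟩
        · exact h2 h5
        · exact h2 (hXR _ h5)
    -- Hall
    let t : {r // r ∈ X} → Finset (Fin m × Bool) := fun r => C.filter (fun c => comp c.1 ≠ comp r)
    obtain ⟨φ, hφ1, hφ2⟩ := (Finset.all_card_le_biUnion_card_iff_exists_injective t).1 (by
      intro s
      rcases Nat.lt_or_ge s.card 2 with hs | hs
      · rcases Nat.eq_zero_or_pos s.card with h0 | h0
        · rw [h0]
          exact Nat.zero_le _
        · have h1' : s.card = 1 := by omega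
          rw [h1']
          obtain ⟨r, hr⟩ := Finset.card_pos.1 h0
          have hne : (R \ X).Nonempty := by
            rw [← Finset.card_pos, Finset.card_sdiff_of_subset hX]
            omega
          obtain ⟨r', hr'⟩ := hne
          rw [Finset.mem_sdiff] at hr'
          refine Finset.card_pos.2 ⟨(r', false), ?_⟩
          rw [Finset.mem_biUnion]
          refine ⟨r, hr, ?_⟩
          rw [Finset.mem_filter]
          refine ⟨(hCmem _).2 (Or.inl ⟨rfl, hr'.1, hr'.2⟩), ?_⟩
          intro h
          have := hinj _ hr'.1 _ (hXR _ r.2) h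
          apply hr'.2
          rw [this]
          exact r.2
      · obtain ⟨r, hr, r', hr', hrr⟩ := Finset.one_lt_card.1 hs
        have hsub : C ⊆ s.biUnion t := by
          intro c hc
          rw [Finset.mem_biUnion]
          by_cases hcr : comp c.1 = comp r
          · refine ⟨r', hr', ?_⟩
            rw [Finset.mem_filter]
            refine ⟨hc, ?_⟩
            intro h
            apply hrr
            apply Subtype.ext
            exact hinj _ (hXR _ r.2) _ (hXR _ r'.2) (hcr.symm.trans h)
          · refine ⟨r, hr, ?_⟩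
            rw [Finset.mem_filter]
            exact ⟨hc, hcr⟩
        refine le_trans ?_ (Finset.card_le_card hsub)
        have hsc : s.card ≤ X.card := by
          have := Finset.card_le_univ s
          simpa using this
        rw [hCcard]
        omega)
    -- the data
    have hb1 : ∀ i, (e.symm i : Fin m × Bool).1 ∈ R := by
      intro i
      rcases (hBmem _).1 (e.symm i).2 with ⟨-, h⟩ | ⟨-, h⟩
      · exact h
      · exact hXR _ h
    have hbad : ∀ i j, i < j → ¬ good S (e.symm i : Fin m × Bool) (e.symm j : Fin m × Bool) →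
        (e.symm i : Fin m × Bool).1 = (e.symm j : Fin m × Bool).1 ∧
        (e.symm i : Fin m × Bool).1 ∈ X ∧
        (e.symm i : Fin m × Bool).2 ≠ (e.symm j : Fin m × Bool).2 := by
      intro i j hij hng
      have h1 : (e.symm i : Fin m × Bool).1 = (e.symm j : Fin m × Bool).1 := by
        by_contra hne
        exact hng (hgoodR _ _ (hb1 i) (hb1 j) hne)
      have h2 : (e.symm i : Fin m × Bool).2 ≠ (e.symm j : Fin m × Bool).2 := by
        intro h2
        exact hij.ne (e.symm.injective (Subtype.ext (Prod.ext h1 h2)))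
      refine ⟨h1, ?_, h2⟩
      rcases (hBmem _).1 (e.symm i).2 with ⟨h3, -⟩ | ⟨-, h⟩
      · rcases (hBmem _).1 (e.symm j).2 with ⟨h4, -⟩ | ⟨-, h⟩
        · exact absurd (h3.trans h4.symm) h2
        · rw [h1]
          exact h
      · exact h
    refine ⟨fun i => (e.symm i : Fin m × Bool), fun i _ =>
      if hi : (e.symm i : Fin m × Bool).1 ∈ X then φ ⟨_, hi⟩ else (e.symm i : Fin m × Bool),
      ?_, ?_⟩
    · intro i j hij
      exact e.symm.injective (Subtype.ext hij)
    · intro i j hij
      by_cases hg : good S (e.symm i : Fin m × Bool) (e.symm j : Fin m × Bool)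
      · exact Or.inl hg
      obtain ⟨g1, g2, g3⟩ := hbad i j hij hg
      have hw := hφ2 ⟨_, g2⟩
      rw [Finset.mem_filter] at hw
      obtain ⟨hw1, hw2⟩ := hw
      right
      simp only [dif_pos g2]
      refine ⟨?_, ?_, ?_, ?_⟩
      · refine ⟨fun h => hw2 (by rw [← h]), ?_⟩
        exact hS _ _ (hRA _ (hb1 i)) (hCA _ hw1) (fun h => hw2 h.symm)
      · refine ⟨fun h => hw2 (by rw [h, ← g1]), ?_⟩
        refine hS _ _ (hCA _ hw1) (hRA _ (hb1 j)) ?_
        rw [← g1]
        exact hw2
      · intro l hl
        apply hCB _ hw1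
        rw [hl]
        exact (e.symm l).2
      · intro i' j' hij' hg' heq
        obtain ⟨g1', g2', g3'⟩ := hbad i' j' hij' hg'
        rw [dif_pos g2'] at heq
        have h5 := congrArg Subtype.val (hφ1 heq)
        -- `h5 : (e.symm i).1 = (e.symm i').1`
        have hor : ∀ a b c d : Bool, a ≠ b → c ≠ d → (a = c ∧ b = d) ∨ (a = d ∧ b = c) := by
          decide
        rcases hor _ _ _ _ g3 g3' with ⟨h6, h7⟩ | ⟨h6, h7⟩
        · have hi : i = i' := e.symm.injective (Subtype.ext (Prod.ext h5 h6))
          have hj : j = j' := e.symm.injective (Subtype.ext (Prod.ext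
            (by rw [← g1, ← g1']; exact h5) h7))
          rw [hi, hj]
        · exfalso
          have hi : i = j' := e.symm.injective (Subtype.ext (Prod.ext
            (by rw [← g1']; exact h5) h6))
          have hj : j = i' := e.symm.injective (Subtype.ext (Prod.ext
            (by rw [← g1]; exact h5) h7))
          rw [hi, hj] at hij
          exact absurd hij (not_lt.2 hij'.le)

end Pool.Agent.Work.MP_5f857a_co
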