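import Mathlib

/-!
Definitions for: centrally symmetric simplicial d-polytopes with fewer than 5d/2 vertices.
-/

set_option autoImplicit false

namespace Pool.Agent.Work.MP_5f857a_co

/-- The ambient space. -/
abbrev E (d : ℕ) := EuclideanSpace ℝ (Fin d)

/-- `V` is the vertex set of a centrally symmetric simplicial `d`-polytope (the hypotheses of
`S09073`). -/
structure CSS (d : ℕ) (V : Finset (E d)) : Prop where
  symm : ∀ v ∈ V, -v ∈ V
  conv : ∀ v ∈ V, v ∉ convexHull ℝ ((V.erase v : Finset (E d)) : Set (E d))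
  full : affineSpan ℝ (V : Set (E d)) = ⊤
  simp : ∀ (f : E d →ₗ[ℝ] ℝ) (c : ℝ), (∀ x ∈ V, f x ≤ c) → (∃ x ∈ V, f x < c) →
    AffineIndependent ℝ (fun x : {x : E d // x ∈ V ∧ f x = c} => (x : E d))

/-- The graph of the polytope (as in `S09073`). -/
def polyG {d : ℕ} (V : Finset (E d)) : SimpleGraph (E d) :=
  SimpleGraph.fromRel (fun u v : E d =>
    u ∈ V ∧ v ∈ V ∧
      ∃ (f : E d →ₗ[ℝ] ℝ) (c : ℝ),
        (∀ x ∈ V, f x ≤ c) ∧ ∀ x ∈ V, (f x = c ↔ (x = u ∨ x = v)))

/-- The point `a i` or `- a i`. -/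
def pt {d m : ℕ} (a : Fin m → E d) (x : Fin m × Bool) : E d :=
  if x.2 then a x.1 else - a x.1

/-- Two points with different indices which are not joined in `S`. -/
def good {m : ℕ} (S : SimpleGraph (Fin m)) (x y : Fin m × Bool) : Prop :=
  x.1 ≠ y.1 ∧ ¬ S.Adj x.1 y.1

end Pool.Agent.Work.MP_5f857a_co
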