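import Pool.Agent.Work.MP_5f857a_co.Defs

/-!
MODULE Dom (linear algebra).  Relations dominated by disjoint pairs are linearly independent.

PROOF.  Claim: `b` is a linearly independent family of vectors of `Fin m → ℝ`.  Let
`Σ_t μ_t b_t = 0`.  For every `t` and `i ∈ {p t, q t}`: `|μ_t| |b_t i| ≤ Σ_(s ≠ t) |μ_s| |b_s i|`.  Add up
over `t` and the two indices:
`Σ_t |μ_t| (|b_t (p t)| + |b_t (q t)|) ≤ Σ_s |μ_s| Σ_(t ≠ s) (|b_s (p t)| + |b_s (q t)|)`
`≤ Σ_s |μ_s| (Σ_i |b_s i| - |b_s (p s)| - |b_s (q s)|)` (the indices `p t`, `q t` are all distinct: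
`hinj`), so `Σ_s |μ_s| (Σ_i |b_s i| - 2 (|b_s (p s)| + |b_s (q s)|)) ≥ 0`, but each bracket is `< 0`;
so all `μ_s = 0`.
The `b_t` lie in the kernel of the surjective linear map `(Fin m → ℝ) → E d`, `b ↦ Σ b_i a_i`
(`Fintype.linearCombination`, range = span), whose dimension is `m - d` (rank nullity,
`LinearMap.finrank_range_add_finrank_ker`), so `k ≤ m - d`
(`LinearIndependent.fintype_card_le_finrank` in the kernel).
-/

set_option autoImplicit false

namespace Pool.Agent.Work.MP_5f857a_co

private theorem dom_indep {m k : ℕ} (p q : Fin k → Fin m)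
    (hinj : Function.Injective (Sum.elim p q)) (b : Fin k → Fin m → ℝ)
    (hd : ∀ t, ∑ i, |b t i| < 2 * (|b t (p t)| + |b t (q t)|)) (μ : Fin k → ℝ)
    (hμ : ∀ i, ∑ t, μ t * b t i = 0) : ∀ t, μ t = 0 := by
  classical
  -- pointwise bound
  have h1 : ∀ (t : Fin k) (i : Fin m), |μ t| * |b t i| ≤
      ∑ s ∈ Finset.univ.erase t, |μ s| * |b s i| := by
    intro t i
    have h2 : μ t * b t i = - ∑ s ∈ Finset.univ.erase t, μ s * b s i := by
      have := hμ i
      rw [← Finset.add_sum_erase Finset.univ (fun t => μ t * b t i) (Finset.mem_univ t)] at this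
      linarith
    rw [← abs_mul, h2, abs_neg]
    refine le_trans (Finset.abs_sum_le_sum_abs _ _) ?_
    exact Finset.sum_le_sum (fun s _ => (abs_mul _ _).le)
  -- total weights on the pairs
  set c : Fin k → Fin k → ℝ := fun s t => |b s (p t)| + |b s (q t)| with hc
  have h3 : ∀ t, |μ t| * c t t ≤ ∑ s ∈ Finset.univ.erase t, |μ s| * c s t := by
    intro t
    have ha := h1 t (p t)
    have hb := h1 t (q t)
    have hsum : ∑ s ∈ Finset.univ.erase t, |μ s| * c s t =
        ∑ s ∈ Finset.univ.erase t, |μ s| * |b s (p t)| +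
        ∑ s ∈ Finset.univ.erase t, |μ s| * |b s (q t)| := by
      rw [← Finset.sum_add_distrib]
      exact Finset.sum_congr rfl (fun s _ => by simp only [hc]; ring)
    rw [hsum]
    simp only [hc]
    nlinarith
  -- all pairs together are at most the total
  have h4 : ∀ s, ∑ t, c s t ≤ ∑ i, |b s i| := by
    intro s
    have h5 : ∑ t, c s t = ∑ x : Fin k ⊕ Fin k, |b s (Sum.elim p q x)| := by
      rw [Fintype.sum_sum_type]
      simp only [Sum.elim_inl, Sum.elim_inr, hc, Finset.sum_add_distrib]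
    rw [h5]
    have h6 : ∑ x : Fin k ⊕ Fin k, |b s (Sum.elim p q x)| =
        ∑ i ∈ Finset.univ.image (Sum.elim p q), |b s i| := by
      rw [Finset.sum_image]
      intro x _ y _ hxy
      exact hinj hxy
    rw [h6]
    exact Finset.sum_le_sum_of_subset_of_nonneg (Finset.subset_univ _)
      (fun i _ _ => abs_nonneg _)
  -- sum over all `t`
  have h7 : ∑ t, |μ t| * c t t ≤ ∑ s, |μ s| * (∑ i, |b s i| - c s s) := by
    calc ∑ t, |μ t| * c t t ≤ ∑ t, ∑ s ∈ Finset.univ.erase t, |μ s| * c s t :=
          Finset.sum_le_sum (fun t _ => h3 t)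
      _ = ∑ t, (∑ s, |μ s| * c s t - |μ t| * c t t) := by
          refine Finset.sum_congr rfl (fun t _ => ?_)
          rw [← Finset.add_sum_erase Finset.univ (fun s => |μ s| * c s t) (Finset.mem_univ t)]
          ring
      _ = ∑ s, |μ s| * (∑ t, c s t - c s s) := by
          rw [Finset.sum_sub_distrib, Finset.sum_comm, ← Finset.sum_sub_distrib]
          refine Finset.sum_congr rfl (fun s _ => ?_)
          rw [← Finset.mul_sum]
          ring
      _ ≤ ∑ s, |μ s| * (∑ i, |b s i| - c s s) := by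
          refine Finset.sum_le_sum (fun s _ => ?_)
          exact mul_le_mul_of_nonneg_left (by linarith [h4 s]) (abs_nonneg _)
  have h8 : ∑ s, |μ s| * (∑ i, |b s i| - 2 * c s s) ≥ 0 := by
    have : ∑ s, |μ s| * (∑ i, |b s i| - 2 * c s s) =
        ∑ s, |μ s| * (∑ i, |b s i| - c s s) - ∑ t, |μ t| * c t t := by
      rw [← Finset.sum_sub_distrib]
      exact Finset.sum_congr rfl (fun s _ => by ring)
    rw [this]
    linarith
  have h9 : ∀ s, |μ s| * (∑ i, |b s i| - 2 * c s s) ≤ 0 := by
    intro s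
    exact mul_nonpos_of_nonneg_of_nonpos (abs_nonneg _) (by
      have := hd s
      simp only [hc]
      linarith)
  intro t
  have h10 : |μ t| * (∑ i, |b t i| - 2 * c t t) = 0 := by
    have h11 : ∑ s, |μ s| * (∑ i, |b s i| - 2 * c s s) = 0 :=
      le_antisymm (Finset.sum_nonpos (fun s _ => h9 s)) h8
    exact (Finset.sum_eq_zero_iff_of_nonpos (fun s _ => h9 s)).1 h11 t (Finset.mem_univ t)
  rcases mul_eq_zero.1 h10 with h | h
  · exact abs_eq_zero.1 h
  · exfalso
    have := hd t
    simp only [hc] at h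
    linarith

theorem dom {d m k : ℕ} (a : Fin m → E d) (hspan : Submodule.span ℝ (Set.range a) = ⊤)
    (p q : Fin k → Fin m) (hinj : Function.Injective (Sum.elim p q)) (b : Fin k → Fin m → ℝ)
    (hb : ∀ t, ∑ i, b t i • a i = 0)
    (hd : ∀ t, ∑ i, |b t i| < 2 * (|b t (p t)| + |b t (q t)|)) : k + d ≤ m := by
  classical
  let Φ : (Fin m → ℝ) →ₗ[ℝ] E d := Fintype.linearCombination ℝ a
  have hrange : LinearMap.range Φ = ⊤ := by
    rw [← hspan]
    exact Fintype.range_linearCombination ℝ a
  have hrn := LinearMap.finrank_range_add_finrank_ker Φ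
  rw [hrange, finrank_top, Module.finrank_fintype_fun_eq_card, Fintype.card_fin,
    finrank_euclideanSpace_fin] at hrn
  have hker : ∀ t, b t ∈ LinearMap.ker Φ := by
    intro t
    rw [LinearMap.mem_ker]
    simpa [Φ, Fintype.linearCombination_apply] using hb t
  have hli : LinearIndependent ℝ (fun t => (⟨b t, hker t⟩ : LinearMap.ker Φ)) := by
    rw [Fintype.linearIndependent_iff]
    intro μ hμ
    apply dom_indep p q hinj b hd μ
    intro i
    have h1 := congrArg (fun x : LinearMap.ker Φ => (x : Fin m → ℝ) i) hμ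
    simpa [Finset.sum_apply] using h1
  have hcard := hli.fintype_card_le_finrank
  rw [Fintype.card_fin] at hcard
  omega

end Pool.Agent.Work.MP_5f857a_co
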