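import Pool.Agent.Work.MP_5f857a_co.Defs

/-!
MODULE Geo0.  Representatives of the antipodal pairs of vertices.

PROOF.  `d > 0`.  `0 ∉ V`: if `0 ∈ V` then, as the affine span of `V` is everything and `d > 0`, there is
`v ∈ V`, `v ≠ 0`, and `0 = (1/2) v + (1/2) (-v)` is in the convex hull of `V.erase 0`, contradicting
`conv`.  So `v ≠ -v` for `v ∈ V`, and the involution `v ↦ -v` of `V` has no fixed points.  Choose one
element from each pair: strong induction on the card of a symmetric finset without `0` (erase `v` and `-v`), or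
take `W = V.filter (fun v => v > -v)` for a linear order on `E d` (e.g. through an embedding of the
finite set `V` in the naturals: `W = {v | e v < e (-v)}`), `m = W.card`, `a = W` enumerated
(`Finset.equivFin`, `Finset.orderEmbOfFin`).
The span: the affine span of `V` is everything, so the linear span of `V` is everything
(`affineSpan_le_toAffineSubspace_span`), and each `v ∈ V` is `± a i`.
-/

set_option autoImplicit false

namespace Pool.Agent.Work.MP_5f857a_co

theorem geo0 {d : ℕ} (hd : 0 < d) (V : Finset (E d)) (hV : CSS d V) :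
    ∃ (m : ℕ) (a : Fin m → E d), V.card = 2 * m ∧ Function.Injective (pt a) ∧
      (∀ x, x ∈ V ↔ ∃ y, pt a y = x) ∧ Submodule.span ℝ (Set.range a) = ⊤ := by
  classical
  have hspanV : Submodule.span ℝ (V : Set (E d)) = ⊤ := by
    rw [eq_top_iff]
    intro x _
    have h1 := affineSpan_le_toAffineSubspace_span (k := ℝ) (s := (V : Set (E d)))
    rw [hV.full] at h1
    exact h1 (AffineSubspace.mem_top ℝ (E d) x)
  -- `0` is not a vertex
  have h0 : (0 : E d) ∉ V := by
    intro h0
    have hex : ∃ v ∈ V, v ≠ 0 := by
      by_contra hno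
      push Not at hno
      have hle : Submodule.span ℝ (V : Set (E d)) ≤ ⊥ := by
        rw [Submodule.span_le]
        intro v hv
        exact hno v hv
      rw [hspanV] at hle
      have hfr : Module.finrank ℝ (E d) = 0 := by
        have h2 : (⊤ : Submodule ℝ (E d)) = ⊥ := le_bot_iff.1 hle
        rw [← finrank_top ℝ (E d), h2]
        exact finrank_bot ℝ (E d)
      rw [finrank_euclideanSpace_fin] at hfr
      omega
    obtain ⟨v, hv, hv0⟩ := hex
    apply hV.conv 0 h0
    have hv1 : v ∈ ((V.erase 0 : Finset (E d)) : Set (E d)) := by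
      rw [Finset.mem_coe, Finset.mem_erase]
      exact ⟨hv0, hv⟩
    have hv2 : -v ∈ ((V.erase 0 : Finset (E d)) : Set (E d)) := by
      rw [Finset.mem_coe, Finset.mem_erase]
      exact ⟨neg_ne_zero.2 hv0, hV.symm v hv⟩
    have hc := (convex_convexHull ℝ ((V.erase 0 : Finset (E d)) : Set (E d)))
      (subset_convexHull ℝ _ hv1) (subset_convexHull ℝ _ hv2)
      (show (0 : ℝ) ≤ 1 / 2 by norm_num) (show (0 : ℝ) ≤ 1 / 2 by norm_num) (by norm_num)
    have hz : (1 / 2 : ℝ) • v + (1 / 2 : ℝ) • (-v) = 0 := by
      rw [smul_neg, add_neg_cancel]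
    rw [hz] at hc
    exact hc
  have hneg : ∀ v ∈ V, v ≠ -v := by
    intro v hv h
    have h2 : v = 0 := by
      have h3 : (2 : ℝ) • v = 0 := by
        rw [two_smul]
        nth_rw 2 [h]
        exact add_neg_cancel v
      exact (smul_eq_zero.1 h3).resolve_left (by norm_num)
    rw [h2] at hv
    exact h0 hv
  -- an index function
  let idx : E d → ℕ := fun v => if h : v ∈ V then (V.equivFin ⟨v, h⟩ : ℕ) else 0
  have hidx : ∀ v ∈ V, ∀ u ∈ V, idx v = idx u → v = u := by
    intro v hv u hu h
    simp only [idx, dif_pos hv, dif_pos hu] at h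
    have := V.equivFin.injective (Fin.ext h)
    exact congrArg Subtype.val this
  set W : Finset (E d) := V.filter (fun v => idx v < idx (-v)) with hW
  have hWV : ∀ v ∈ W, v ∈ V := fun v hv => (Finset.mem_filter.1 hv).1
  have hWn : ∀ v ∈ W, -v ∉ W := by
    intro v hv hv'
    have h1 := (Finset.mem_filter.1 hv).2
    have h2 := (Finset.mem_filter.1 hv').2
    rw [neg_neg] at h2
    omega
  have hWor : ∀ v ∈ V, v ∈ W ∨ -v ∈ W := by
    intro v hv
    have hne : idx v ≠ idx (-v) := fun h => hneg v hv (hidx v hv _ (hV.symm v hv) h)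
    rcases lt_or_gt_of_ne hne with h | h
    · exact Or.inl (Finset.mem_filter.2 ⟨hv, h⟩)
    · refine Or.inr (Finset.mem_filter.2 ⟨hV.symm v hv, ?_⟩)
      rw [neg_neg]
      exact h
  let a : Fin W.card → E d := fun i => (W.equivFin.symm i : E d)
  have haW : ∀ i, a i ∈ W := fun i => (W.equivFin.symm i).2
  have hainj : Function.Injective a := by
    intro i j hij
    exact W.equivFin.symm.injective (Subtype.ext hij)
  have hasurj : ∀ v ∈ W, ∃ i, a i = v := by
    intro v hv
    refine ⟨W.equivFin ⟨v, hv⟩, ?_⟩
    simp [a]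
  have hinj : Function.Injective (pt a) := by
    rintro ⟨i, s⟩ ⟨j, t⟩ h
    cases s <;> cases t
    · simp only [pt, Bool.false_eq_true, if_false, neg_inj] at h
      rw [hainj h]
    · simp only [pt, Bool.false_eq_true, if_false, if_true] at h
      exfalso
      apply hWn _ (haW i)
      rw [h]
      exact haW j
    · simp only [pt, Bool.false_eq_true, if_false, if_true] at h
      exfalso
      apply hWn _ (haW j)
      rw [← h]
      exact haW i
    · simp only [pt, if_true] at h
      rw [hainj h]
  have hmem : ∀ x, x ∈ V ↔ ∃ y, pt a y = x := by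
    intro x
    constructor
    · intro hx
      rcases hWor x hx with h | h
      · obtain ⟨i, hi⟩ := hasurj x h
        exact ⟨(i, true), by simp [pt, hi]⟩
      · obtain ⟨i, hi⟩ := hasurj _ h
        exact ⟨(i, false), by simp [pt, hi]⟩
    · rintro ⟨⟨i, s⟩, rfl⟩
      cases s
      · simp only [pt, Bool.false_eq_true, if_false]
        exact hV.symm _ (hWV _ (haW i))
      · simp only [pt, if_true]
        exact hWV _ (haW i)
  refine ⟨W.card, a, ?_, hinj, hmem, ?_⟩
  · have hVi : V = Finset.univ.image (pt a) := by
      ext x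
      rw [hmem x]
      simp
    rw [hVi, Finset.card_image_of_injective _ hinj, Finset.card_univ, Fintype.card_prod,
      Fintype.card_fin, Fintype.card_bool, mul_comm]
  · rw [eq_top_iff, ← hspanV, Submodule.span_le]
    intro x hx
    obtain ⟨⟨i, s⟩, hy⟩ := (hmem x).1 hx
    cases s
    · simp only [pt, Bool.false_eq_true, if_false] at hy
      rw [← hy]
      exact Submodule.neg_mem _ (Submodule.subset_span ⟨i, rfl⟩)
    · simp only [pt, if_true] at hy
      rw [← hy]
      exact Submodule.subset_span ⟨i, rfl⟩

end Pool.Agent.Work.MP_5f857a_co
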