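import Pool.Agent.Work.MP_5f857a_co.Defs

/-!
MODULE GeoEdge (convex geometry).  A segment between two vertices whose midpoint is not interior is an edge.

PROOF.  Let `x = (1/2)(u + v)` and `P = convexHull V`.  `interior P` is convex, open and nonempty
(`interior_convexHull_nonempty_iff_affineSpan_eq_top`).  Suppose `x ∉ interior P`.  By
`geometric_hahn_banach_open_point` there is a continuous functional `f` with `f y < f x` for all `y` in the
interior; as `P` is in the closure of its interior (`Convex.closure_interior_eq_closure_of_nonempty_interior`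
or the segment from an interior point) `f y ≤ f x =: c` for all `y ∈ V`.  `f u, f v ≤ c` and
`f u + f v = 2 c` give `f u = f v = c`.  Some `y ∈ V` has `f y < c`: otherwise `f = c` on `V`, so on `P`,
but `f < c` on the nonempty interior.
So `Φ = {y ∈ V | f y = c}` is affinely independent (`simp`), and contains `u`, `v`.  There is an affine
function `h : E d →ᵃ[ℝ] ℝ` with `h u = h v = 0` and `h y = -1` for the other `y ∈ Φ` (extend an
affinely independent family to an affine basis: `AffineIndependent.exists_affineBasis...` /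
`exists_subset_affineIndependent_affineSpan_eq_top`, and use `AffineBasis.coord`; or linear algebra:
`AffineIndependent` iff the vectors `y - u` are linearly independent,
`affineIndependent_iff_linearIndependent_vsub`, `LinearIndependent.extend`, `Basis.constr`).
For small `ε > 0`: `g = f + ε h` satisfies `g ≤ c` on `V` with equality exactly at `u`, `v`: on `Φ` clear;
for `y ∈ V \ Φ`: `f y < c`, finitely many, choose `ε` with `ε |h y| < c - f y`.  The linear part of
`g` and the constant `c - ε h(0)` are the required functional and constant.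
-/

set_option autoImplicit false

namespace Pool.Agent.Work.MP_5f857a_co

theorem interior_of_not_adj {d : ℕ} (V : Finset (E d)) (hV : CSS d V) (u v : E d)
    (hu : u ∈ V) (hv : v ∈ V) (huv : u ≠ v) (hadj : ¬ (polyG V).Adj u v) :
    (1 / 2 : ℝ) • (u + v) ∈ interior (convexHull ℝ (V : Set (E d))) := by
  classical
  by_contra hx
  apply hadj
  set x : E d := (1 / 2 : ℝ) • (u + v) with hxdef
  have hne : (interior (convexHull ℝ (V : Set (E d)))).Nonempty :=
    interior_convexHull_nonempty_iff_affineSpan_eq_top.2 hV.full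
  have hconv : Convex ℝ (convexHull ℝ (V : Set (E d))) := convex_convexHull ℝ _
  obtain ⟨f, hf⟩ := geometric_hahn_banach_open_point hconv.interior isOpen_interior hx
  have hle : ∀ y ∈ convexHull ℝ (V : Set (E d)), f y ≤ f x := by
    intro y hy
    have h1 : y ∈ closure (interior (convexHull ℝ (V : Set (E d)))) := by
      rw [hconv.closure_interior_eq_closure_of_nonempty_interior hne]
      exact subset_closure hy
    have hclosed : IsClosed {y : E d | f y ≤ f x} := isClosed_le f.continuous continuous_const
    exact closure_minimal (fun a ha => (hf a ha).le) hclosed h1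
  have hleV : ∀ y ∈ V, f y ≤ f x := fun y hy => hle y (subset_convexHull ℝ _ hy)
  have hfx : f x = (1 / 2 : ℝ) * (f u + f v) := by
    rw [hxdef, map_smul, map_add, smul_eq_mul]
  have hfu : f u = f x := by
    have h1 := hleV u hu
    have h2 := hleV v hv
    linarith
  have hfv : f v = f x := by
    have h1 := hleV u hu
    have h2 := hleV v hv
    linarith
  have hlt : ∃ y ∈ V, f y < f x := by
    by_contra hno
    push Not at hno
    obtain ⟨p, hp⟩ := hne
    have h1 : convexHull ℝ (V : Set (E d)) ⊆ {y : E d | f x ≤ f y} := by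
      apply convexHull_min
      · intro y hy
        exact hno y hy
      · exact convex_halfSpace_ge (f := f) f.toLinearMap.isLinear (f x)
    have h2 : f x ≤ f p := h1 (interior_subset hp)
    have h3 := hf p hp
    linarith
  -- the face is affinely independent
  have hind := hV.simp (f : E d →ₗ[ℝ] ℝ) (f x) hleV hlt
  let i0 : {z : E d // z ∈ V ∧ (f : E d →ₗ[ℝ] ℝ) z = f x} := ⟨u, hu, hfu⟩
  rw [affineIndependent_iff_linearIndependent_vsub ℝ _ i0] at hind
  obtain ⟨φ, hφ⟩ : ∃ φ : E d →ₗ[ℝ] ℝ, ∀ i : {z : {z : E d // z ∈ V ∧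
      (f : E d →ₗ[ℝ] ℝ) z = f x} // z ≠ i0},
      φ (i.1.1 -ᵥ i0.1) = if i.1.1 = v then 0 else -1 := by
    obtain ⟨φ, hφ⟩ := LinearMap.exists_extend ((Module.Basis.span hind).constr ℝ
      (fun i => if i.1.1 = v then (0 : ℝ) else -1))
    refine ⟨φ, fun i => ?_⟩
    have h1 := congrArg (fun q => q (Module.Basis.span hind i)) hφ
    rw [Module.Basis.constr_basis, LinearMap.comp_apply, Submodule.subtype_apply,
      Module.Basis.span_apply] at h1
    exact h1
  have hφ' : ∀ y ∈ V, f y = f x → y ≠ u → φ y - φ u = if y = v then 0 else -1 := by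
    intro y hy hfy hyu
    have h1 := hφ ⟨⟨y, hy, hfy⟩, fun h => hyu (congrArg (fun q => q.1) h)⟩
    simp only [vsub_eq_sub, map_sub, i0] at h1
    exact h1
  -- the gap
  obtain ⟨δ, hδ, hgap⟩ : ∃ δ : ℝ, 0 < δ ∧ ∀ y ∈ V, f y < f x → f y + δ ≤ f x := by
    have hVn : (V.filter (fun y => f y < f x)).Nonempty := by
      obtain ⟨y, hy, hfy⟩ := hlt
      exact ⟨y, Finset.mem_filter.2 ⟨hy, hfy⟩⟩
    obtain ⟨y0, hy0, hmin⟩ := Finset.exists_min_image _ (fun y => f x - f y) hVn
    refine ⟨f x - f y0, ?_, ?_⟩
    · have := (Finset.mem_filter.1 hy0).2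
      linarith
    · intro y hy hfy
      have := hmin y (Finset.mem_filter.2 ⟨hy, hfy⟩)
      linarith
  -- a bound for the values of `φ`
  set B : ℝ := ∑ y ∈ V, |φ y - φ u| + 1 with hB
  have hBpos : 0 < B := by
    have : 0 ≤ ∑ y ∈ V, |φ y - φ u| := Finset.sum_nonneg (fun _ _ => abs_nonneg _)
    linarith
  have hBle : ∀ y ∈ V, |φ y - φ u| < B := by
    intro y hy
    have := Finset.single_le_sum (f := fun y => |φ y - φ u|) (fun _ _ => abs_nonneg _) hy
    linarith
  set ε : ℝ := δ / B with hε
  have hεpos : 0 < ε := div_pos hδ hBpos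
  have hεB : ε * B = δ := by
    rw [hε]
    field_simp
  -- strict inequality away from `u`, `v`
  have hval : ∀ y ∈ V, (f y + ε * (φ y - φ u) ≤ f x) ∧
      (f y + ε * (φ y - φ u) = f x ↔ (y = u ∨ y = v)) := by
    intro y hy
    by_cases hfy : f y = f x
    · by_cases hyu : y = u
      · subst hyu
        rw [sub_self, mul_zero, add_zero, hfy]
        exact ⟨le_refl _, iff_of_true rfl (Or.inl rfl)⟩
      · have h1 := hφ' y hy hfy hyu
        by_cases hyv : y = v
        · rw [if_pos hyv] at h1
          rw [h1, mul_zero, add_zero, hfy]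
          exact ⟨le_refl _, iff_of_true rfl (Or.inr hyv)⟩
        · rw [if_neg hyv] at h1
          rw [h1, hfy]
          refine ⟨by linarith, iff_of_false (by intro h; linarith) ?_⟩
          rintro (h | h)
          · exact hyu h
          · exact hyv h
    · have h1 : f y < f x := lt_of_le_of_ne (hleV y hy) hfy
      have h2 := hgap y hy h1
      have h3 : ε * (φ y - φ u) < δ := by
        rw [← hεB]
        exact mul_lt_mul_of_pos_left (lt_of_le_of_lt (le_abs_self _) (hBle y hy)) hεpos
      refine ⟨by linarith, iff_of_false (by intro h; linarith) ?_⟩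
      rintro (h | h)
      · exact hfy (h ▸ hfu)
      · exact hfy (h ▸ hfv)
  rw [polyG, SimpleGraph.fromRel_adj]
  refine ⟨huv, Or.inl ⟨hu, hv, (f : E d →ₗ[ℝ] ℝ) + ε • φ, f x + ε * φ u, ?_, ?_⟩⟩
  · intro y hy
    have h1 := (hval y hy).1
    have h2 : ((f : E d →ₗ[ℝ] ℝ) + ε • φ) y = f y + ε * φ y := rfl
    rw [h2]
    linarith
  · intro y hy
    have h1 := (hval y hy).2
    have h2 : ((f : E d →ₗ[ℝ] ℝ) + ε • φ) y = f y + ε * φ y := rfl
    rw [h2, ← h1]
    constructor <;> intro h <;> linarith

end Pool.Agent.Work.MP_5f857a_co
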