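import Pool.Agent.Work.MP_5f857a_co.GeoEdge

/-!
MODULE GeoRel.  A nonedge gives a linear relation dominated by its two coefficients.

PROOF.  `u = pt a x`, `v = pt a y`, `x.1 ≠ y.1`, not adjacent; `u, v ∈ V`, `u ≠ v` (injectivity).  By
`interior_of_not_adj` the midpoint `z = (1/2)(u+v)` is interior to `P = convexHull V`; so for some
`ε > 0` also `(1 + ε) • z ∈ P` (continuity of `t ↦ t • z` at `1`).  Write
`(1+ε) z = Σ_(w ∈ V) λ_w w`, `λ ≥ 0`, `Σ λ = 1` (`Finset.mem_convexHull'` or `Finset.mem_convexHull`).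
With `V = {± a k}`: `(1+ε) z = Σ_k c_k a_k` with `c_k = λ_(a k) - λ_(-a k)`, and
`Σ_k |c_k| ≤ Σ_w λ_w = 1`.  Let `b k = c k` for `k ≠ x.1, y.1`, and
`b x.1 = c x.1 - σ (1+ε)/2`, `b y.1 = c y.1 - τ (1+ε)/2` with `u = σ a x.1`, `v = τ a y.1`, `σ, τ = ±1`.
Then `Σ b_k a_k = 0` and
`|b x.1| + |b y.1| ≥ (1+ε) - |c x.1| - |c y.1| > 1 - |c x.1| - |c y.1| ≥ Σ_(others) |c_k|`, so
`Σ_k |b k| < 2 (|b x.1| + |b y.1|)`.
-/

set_option autoImplicit false

namespace Pool.Agent.Work.MP_5f857a_co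

theorem geoRel {d m : ℕ} (V : Finset (E d)) (hV : CSS d V) (a : Fin m → E d)
    (hinj : Function.Injective (pt a)) (hVa : ∀ x, x ∈ V ↔ ∃ y, pt a y = x)
    (x y : Fin m × Bool) (hxy : x.1 ≠ y.1) (hadj : ¬ (polyG V).Adj (pt a x) (pt a y)) :
    ∃ b : Fin m → ℝ, ∑ k, b k • a k = 0 ∧ ∑ k, |b k| < 2 * (|b x.1| + |b y.1|) := by
  classical
  have hne : pt a x ≠ pt a y := fun h => hxy (congrArg Prod.fst (hinj h))
  have hint := interior_of_not_adj V hV (pt a x) (pt a y) ((hVa _).2 ⟨x, rfl⟩)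
    ((hVa _).2 ⟨y, rfl⟩) hne hadj
  set z : E d := (1 / 2 : ℝ) • (pt a x + pt a y) with hz
  -- a dilated midpoint is still in the polytope
  obtain ⟨ε, hε, hmem⟩ : ∃ ε : ℝ, 0 < ε ∧ (1 + ε) • z ∈ convexHull ℝ (V : Set (E d)) := by
    have hcont : Continuous (fun t : ℝ => (1 + t) • z) := by fun_prop
    have hopen : IsOpen ((fun t : ℝ => (1 + t) • z) ⁻¹' interior (convexHull ℝ (V : Set (E d)))) :=
      isOpen_interior.preimage hcont
    have h0 : (0 : ℝ) ∈ (fun t : ℝ => (1 + t) • z) ⁻¹'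
        interior (convexHull ℝ (V : Set (E d))) := by
      simp only [Set.mem_preimage, add_zero, one_smul]
      exact hint
    obtain ⟨δ, hδ, hball⟩ := Metric.isOpen_iff.1 hopen 0 h0
    refine ⟨δ / 2, by linarith, ?_⟩
    apply interior_subset
    apply hball
    rw [Metric.mem_ball, Real.dist_eq, sub_zero, abs_of_pos (by linarith)]
    linarith
  rw [Finset.mem_convexHull'] at hmem
  obtain ⟨lam, hl0, hl1, hl2⟩ := hmem
  -- sums over V as sums over indices
  have hVimg : V = Finset.univ.image (pt a) := by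
    ext v
    rw [hVa v]
    simp
  have hsum : ∀ f : E d → ℝ, ∑ v ∈ V, f v = ∑ k : Fin m, (f (a k) + f (-a k)) := by
    intro f
    rw [hVimg, Finset.sum_image (fun _ _ _ _ h => hinj h), Fintype.sum_prod_type]
    refine Finset.sum_congr rfl (fun k _ => ?_)
    rw [Fintype.sum_bool]
    simp [pt]
  have hsum' : ∀ f : E d → E d, ∑ v ∈ V, f v = ∑ k : Fin m, (f (a k) + f (-a k)) := by
    intro f
    rw [hVimg, Finset.sum_image (fun _ _ _ _ h => hinj h), Fintype.sum_prod_type]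
    refine Finset.sum_congr rfl (fun k _ => ?_)
    rw [Fintype.sum_bool]
    simp [pt]
  have hakV : ∀ k, a k ∈ V := fun k => (hVa _).2 ⟨(k, true), by simp [pt]⟩
  have hnakV : ∀ k, -a k ∈ V := fun k => (hVa _).2 ⟨(k, false), by simp [pt]⟩
  set c : Fin m → ℝ := fun k => lam (a k) - lam (-a k) with hc
  have hcsum : ∑ k, c k • a k = (1 + ε) • z := by
    rw [← hl2, hsum' (fun v => lam v • v)]
    refine Finset.sum_congr rfl (fun k _ => ?_)
    simp only [hc, sub_smul, smul_neg]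
    abel
  have hcabs : ∑ k, |c k| ≤ 1 := by
    rw [← hl1, hsum lam]
    refine Finset.sum_le_sum (fun k _ => ?_)
    simp only [hc]
    have h1 := hl0 _ (hakV k)
    have h2 := hl0 _ (hnakV k)
    rw [abs_le]
    constructor <;> linarith
  -- signs
  set σ : Bool → ℝ := fun s => if s then 1 else -1 with hσ
  have hpt : ∀ w : Fin m × Bool, pt a w = σ w.2 • a w.1 := by
    rintro ⟨k, s⟩
    cases s <;> simp [pt, hσ]
  have hσabs : ∀ s, |σ s| = 1 := by
    intro s
    cases s <;> simp [hσ]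
  -- the relation
  obtain ⟨g, hg⟩ : ∃ g : Fin m → ℝ, ∀ k, g k = c k -
      (if k = x.1 then (1 + ε) / 2 * σ x.2 else 0) -
      (if k = y.1 then (1 + ε) / 2 * σ y.2 else 0) := ⟨_, fun k => rfl⟩
  have hx : g x.1 = c x.1 - (1 + ε) / 2 * σ x.2 := by
    rw [hg, if_pos rfl, if_neg hxy, sub_zero]
  have hy : g y.1 = c y.1 - (1 + ε) / 2 * σ y.2 := by
    rw [hg, if_pos rfl, if_neg hxy.symm, sub_zero]
  refine ⟨g, ?_, ?_⟩
  · have h1 : ∑ k, g k • a k =
        ∑ k, c k • a k - ((1 + ε) / 2 * σ x.2) • a x.1 - ((1 + ε) / 2 * σ y.2) • a y.1 := by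
      simp only [hg, sub_smul, Finset.sum_sub_distrib, ite_smul, zero_smul, Finset.sum_ite_eq',
        Finset.mem_univ, if_true]
    rw [h1, hcsum, hz, hpt x, hpt y]
    module
  · -- split the sum
    have hsplit : ∀ g : Fin m → ℝ, ∑ k, g k = g x.1 + g y.1 +
        ∑ k ∈ (Finset.univ.erase x.1).erase y.1, g k := by
      intro g
      rw [← Finset.add_sum_erase Finset.univ g (Finset.mem_univ x.1),
        ← Finset.add_sum_erase (Finset.univ.erase x.1) g
          (Finset.mem_erase.2 ⟨hxy.symm, Finset.mem_univ _⟩)]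
      ring
    have hrest : ∑ k ∈ (Finset.univ.erase x.1).erase y.1, |g k| =
        ∑ k ∈ (Finset.univ.erase x.1).erase y.1, |c k| := by
      refine Finset.sum_congr rfl (fun k hk => ?_)
      rw [Finset.mem_erase, Finset.mem_erase] at hk
      rw [hg, if_neg hk.2.1, if_neg hk.1, sub_zero, sub_zero]
    have h0 := hsplit (fun k => |g k|)
    have hc2 := hcabs
    rw [hsplit (fun k => |c k|)] at hc2
    simp only [hrest] at h0
    have key : ∀ (u s : ℝ), |s| = 1 → (1 + ε) / 2 - |u| ≤ |u - (1 + ε) / 2 * s| := by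
      intro u s hs
      have h1 := abs_sub_abs_le_abs_sub ((1 + ε) / 2 * s) u
      rw [abs_mul, hs, mul_one, abs_of_pos (by linarith : (0 : ℝ) < (1 + ε) / 2),
        abs_sub_comm] at h1
      exact h1
    have hk1 := key (c x.1) (σ x.2) (hσabs _)
    have hk2 := key (c y.1) (σ y.2) (hσabs _)
    rw [← hx] at hk1
    rw [← hy] at hk2
    linarith

end Pool.Agent.Work.MP_5f857a_co
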