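import Mathlib

/-!
MODULE Walks (Mathlib only).  A subdivision of a complete graph from branch vertices and connectors.

PROOF.  For `i < j` let `p i j` be the walk of length 1 if `b i`, `b j` are adjacent, otherwise the walk
`b i, w i j, b j` (the second alternative of `h` holds); for `i > j` the reverse of `p j i`
(or any walk), for `i = j` the walk `nil`.  The supports for `i < j` are contained in `{b i, b j}` or
`{b i, w i j, b j}`; the walks are paths because `b i ≠ b j` and `w i j` is not a branch vertex.
If `z` is in the supports of `p i j` and `p k l`, `(i, j) ≠ (k, l)`, and `z` is not `b i`, `b j`, then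
`z = w i j` and `b i`, `b j` are not adjacent; `z` is not a branch vertex so `z = w k l` with `b k`, `b l`
not adjacent: so `(i, j) = (k, l)`, a contradiction.
-/

set_option autoImplicit false

namespace Pool.Agent.Work.MP_5f857a_co

theorem walks {X : Type} (G : SimpleGraph X) {n : ℕ} (b : Fin n → X) (hb : Function.Injective b)
    (w : Fin n → Fin n → X)
    (h : ∀ i j, i < j → G.Adj (b i) (b j) ∨
      (G.Adj (b i) (w i j) ∧ G.Adj (w i j) (b j) ∧ (∀ l, w i j ≠ b l) ∧
        ∀ i' j', i' < j' → ¬ G.Adj (b i') (b j') → w i j = w i' j' → (i, j) = (i', j'))) :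
    ∃ p : (i j : Fin n) → G.Walk (b i) (b j),
      (∀ i j, i < j → (p i j).IsPath) ∧
      (∀ i j k l, i < j → k < l → (i, j) ≠ (k, l) →
        ∀ x ∈ (p i j).support, x ∈ (p k l).support → x = b i ∨ x = b j) := by
  classical
  -- for `i < j` a suitable path
  have H : ∀ i j, i < j → ∃ q : G.Walk (b i) (b j), q.IsPath ∧
      ∀ x ∈ q.support, x = b i ∨ x = b j ∨ (¬ G.Adj (b i) (b j) ∧ x = w i j) := by
    intro i j hij
    have hne : b i ≠ b j := fun he => hij.ne (hb he)
    by_cases hadj : G.Adj (b i) (b j)
    · refine ⟨SimpleGraph.Walk.cons hadj SimpleGraph.Walk.nil, ?_, ?_⟩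
      · rw [SimpleGraph.Walk.cons_isPath_iff]
        refine ⟨SimpleGraph.Walk.IsPath.nil, ?_⟩
        simpa using hne
      · intro x hx
        simp only [SimpleGraph.Walk.support_cons, SimpleGraph.Walk.support_nil,
          List.mem_cons, List.not_mem_nil, or_false] at hx
        rcases hx with hx | hx
        · exact Or.inl hx
        · exact Or.inr (Or.inl hx)
    · rcases h i j hij with hc | ⟨h1, h2, h3, h4⟩
      · exact absurd hc hadj
      refine ⟨SimpleGraph.Walk.cons h1 (SimpleGraph.Walk.cons h2 SimpleGraph.Walk.nil), ?_, ?_⟩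
      · rw [SimpleGraph.Walk.cons_isPath_iff, SimpleGraph.Walk.cons_isPath_iff]
        refine ⟨⟨SimpleGraph.Walk.IsPath.nil, ?_⟩, ?_⟩
        · simpa using h3 j
        · simp only [SimpleGraph.Walk.support_cons, SimpleGraph.Walk.support_nil,
            List.mem_cons, List.not_mem_nil, or_false, not_or]
          exact ⟨fun he => h3 i he.symm, hne⟩
      · intro x hx
        simp only [SimpleGraph.Walk.support_cons, SimpleGraph.Walk.support_nil,
          List.mem_cons, List.not_mem_nil, or_false] at hx
        rcases hx with hx | hx | hx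
        · exact Or.inl hx
        · exact Or.inr (Or.inr ⟨hadj, hx⟩)
        · exact Or.inr (Or.inl hx)
  choose q hq1 hq2 using H
  let p : (i j : Fin n) → G.Walk (b i) (b j) := fun i j =>
    if hij : i < j then q i j hij
    else if hji : j < i then (q j i hji).reverse
    else (SimpleGraph.Walk.nil : G.Walk (b i) (b i)).copy rfl
      (by rw [le_antisymm (not_lt.1 hji) (not_lt.1 hij)])
  have hp : ∀ i j (hij : i < j), p i j = q i j hij := by
    intro i j hij
    simp only [p, dif_pos hij]
  refine ⟨p, ?_, ?_⟩
  · intro i j hij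
    rw [hp i j hij]
    exact hq1 i j hij
  · intro i j k l hij hkl hne x hx hx'
    rw [hp i j hij] at hx
    rw [hp k l hkl] at hx'
    rcases hq2 i j hij x hx with hx1 | hx1 | ⟨hadj, hx1⟩
    · exact Or.inl hx1
    · exact Or.inr hx1
    · exfalso
      rcases h i j hij with hc | ⟨h1, h2, h3, h4⟩
      · exact hadj hc
      rcases hq2 k l hkl x hx' with hx2 | hx2 | ⟨hadj2, hx2⟩
      · exact h3 k (hx1.symm.trans hx2)
      · exact h3 l (hx1.symm.trans hx2)
      · exact hne (h4 k l hkl hadj2 (hx1.symm.trans hx2))

end Pool.Agent.Work.MP_5f857a_co
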