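import Pool.Agent.Work.MP_5f857a_co.Geo0
import Pool.Agent.Work.MP_5f857a_co.GeoRel
import Pool.Agent.Work.MP_5f857a_co.Dom
import Pool.Agent.Work.MP_5f857a_co.Berge
import Pool.Agent.Work.MP_5f857a_co.Comb
import Pool.Agent.Work.MP_5f857a_co.Walks

/-!
Main (assembly, helper79).
-/

set_option autoImplicit false

namespace Pool.Agent.Work.MP_5f857a_co

theorem few_vertices (d : ℕ) (V : Finset (E d)) (hV : CSS d V) (hcard : 2 * V.card < 5 * d) :
    ∃ (b : Fin (3 * d / 2) → E d), Function.Injective b ∧ (∀ i, b i ∈ V) ∧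
      ∃ (p : (i j : Fin (3 * d / 2)) → (polyG V).Walk (b i) (b j)),
        (∀ i j, i < j → (p i j).IsPath) ∧
        (∀ i j k l, i < j → k < l → (i, j) ≠ (k, l) →
          ∀ x ∈ (p i j).support, x ∈ (p k l).support → x = b i ∨ x = b j) := by
  classical
  have hd : 0 < d := by omega
  obtain ⟨m, a, hm, hinj, hVa, hspan⟩ := geo0 hd V hV
  -- the graph of bad pairs of indices
  let S : SimpleGraph (Fin m) :=
    { Adj := fun i j => i ≠ j ∧ ∃ s t : Bool, ¬ (polyG V).Adj (pt a (i, s)) (pt a (j, t))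
      symm := by
        constructor
        rintro i j ⟨hij, s, t, h⟩
        exact ⟨hij.symm, t, s, fun h' => h h'.symm⟩
      loopless := by
        constructor
        rintro i ⟨h, -⟩
        exact h rfl }
  obtain ⟨k, p, q, A, R, comp, h1, h2, h3, h4, h5, h6⟩ := berge S
  have hkd : k + d ≤ m := by
    have hrel : ∀ t, ∃ b : Fin m → ℝ, ∑ i, b i • a i = 0 ∧
        ∑ i, |b i| < 2 * (|b (p t)| + |b (q t)|) := by
      intro t
      obtain ⟨hne, s, s', hst⟩ := h2 t
      exact geoRel V hV a hinj hVa (p t, s) (q t, s') hne hst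
    choose b hb1 hb2 using hrel
    exact dom a hspan p q h1 b hb1 hb2
  obtain ⟨b, w, hb, hw⟩ := comb (d := d) (by omega) hkd S A R comp h3 h4 h5 h6
  have hgood : ∀ x y : Fin m × Bool, good S x y → (polyG V).Adj (pt a x) (pt a y) := by
    rintro ⟨i, s⟩ ⟨j, t⟩ ⟨hij, hS⟩
    by_contra hno
    exact hS ⟨hij, s, t, hno⟩
  refine ⟨fun i => pt a (b i), hinj.comp hb, fun i => (hVa _).2 ⟨b i, rfl⟩, ?_⟩
  refine walks (polyG V) (fun i => pt a (b i)) (hinj.comp hb) (fun i j => pt a (w i j)) ?_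
  intro i j hij
  rcases hw i j hij with hg | ⟨hg1, hg2, hg3, hg4⟩
  · exact Or.inl (hgood _ _ hg)
  · by_cases hg : good S (b i) (b j)
    · exact Or.inl (hgood _ _ hg)
    refine Or.inr ⟨hgood _ _ hg1, hgood _ _ hg2, fun l hl => hg3 l (hinj hl), ?_⟩
    intro i' j' hij' hadj hww
    exact hg4 i' j' hij' (fun hgg => hadj (hgood _ _ hgg)) (hinj hww)

end Pool.Agent.Work.MP_5f857a_co
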